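import Pool.Agent.N212.TW.Frob

/-!
# The cohomology rings of twisted derived equivalent hyperkähler varieties

**Theorem.** Let `X` and `Y` be twisted derived equivalent hyperkähler varieties of dimension `2m`.

(1) The graded `ℚ`-algebras `H(X, ℚ)` and `H(Y, ℚ)` are isomorphic.

(2) Let `X` and `Y` have the same Fujiki constant, and let `H^2(Y, ℚ)` contain an isotropic vector
(by Meyer's theorem this holds if `b_2 ≥ 5`) or let the cohomology be zero in odd degrees. If `m` is
odd, or if `b_2` is odd and `H^2(X, ℚ)` and `H^2(Y, ℚ)` are isometric, then `H(X, ℚ)` and `H(Y, ℚ)`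
are isomorphic as Frobenius algebras.

So (2) holds if `X` and `Y` are deformation equivalent and of one of the known deformation types:
K3 surfaces and OG6, OG10 (`m = 1, 3, 5`), K3^[m] (`b_2 = 23`), generalized Kummer varieties
(`b_2 = 7`).

What is used about `X`, `Y` and the equivalence are the theorems collected in the structures
`HKData` (`Pool/Agent/N180/MO/Stm.lean`, here with the space of all classes of degree two instead of
the space of divisor classes) and `TwistedData`, `IsFujiki`, `IsMukai`
(`Pool/Agent/N212/TW/Stm.lean`), for a Weil cohomology theory `W` with coefficients in a subfield of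
`ℂ`, such as the singular cohomology of complex varieties with rational coefficients.

**Proof.** Let `u` be the operator of the twisted Mukai vector of the kernel, and `φ : V_X → V_Y` the
similitude of the extended Mukai spaces, of factor `c`. (a) A product `p` of exponentials
`exp(R l x)` over `ℚ`, `l` isotropic and orthogonal to `x`, moves `φ(β)` to the line of `β` and `φ(α)`
to the line of `α`, say `p φ(α) = r α`, and `s = p u` preserves the degrees. (b) Let `g_X` be the
product of `exp(x)`, `x` the B-field, and of the Weyl element of the symplectic form, so that it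
conjugates cup products to the twisted contractions. Then `g_Y⁻¹ u g_X` conjugates cup products on
`H(X, ℂ)` to cup products on `H(Y, ℂ)`, and differs from `s` by an element of the complex spin group
fixing the line of `β`; up to an exponential of a cup product it fixes the line of `α` as well, so it
is an automorphism up to a scalar. Hence `θ = s / s(1)` is an isomorphism of rings. (c) We have
`r² q(θ x) = c q(x)` on `H^2`, so `r ^ (2m) ∫ θ(a) = c ^ m ∫ a` if the Fujiki constants agree. The
number `r` can be multiplied by `q(y) / q(x)` for all `x`, `y` in `H^2(Y, ℚ)`, and by all rational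
numbers if there is an isotropic vector. So it remains to show that `c` is a square. If the spaces
`H^2` are isometric of odd dimension, this is seen on the determinant of `θ`. If `m` is odd, then
`s(1)² ∫ θ(a) = ∫ a`, as `u` and `p` are isometries for the Mukai pairing, so `c ^ m` is a square.
-/

open CategoryTheory AlgebraicGeometry

universe u v

namespace Pool.Agent.Results.MP_d3d358_ag.TwistedCohomologyRings

open Pool.Agent.N180.MOS Pool.Agent.N212.TWS Pool.Agent.H914 VarClass Obj

variable {k : Type u} [Field k] {𝒱 : VarClass k} {ops : CycleOps 𝒱}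

/-- The data for the variety `X`, see `HKData`. -/
abbrev Hyperkahler (W : WeilCohomology.{u, v} ops) [Algebra W.K ℂ] (X : 𝒱.Obj) : Type v :=
  HKData (W.gr X) ⊤ X.dim

/-- The data for a twisted derived equivalence, see `TwistedData`. -/
abbrev TwistedDerivedEquivalence {W : WeilCohomology.{u, v} ops} [Algebra W.K ℂ] {X Y : 𝒱.Obj}
    (hX : Hyperkahler W X) (hY : Hyperkahler W Y) : Type v := TwistedData hX hY

theorem result (W : WeilCohomology.{u, v} ops) [Algebra W.K ℂ] (X Y : 𝒱.Obj)
    (hX : Hyperkahler W X) (hY : Hyperkahler W Y) (D : TwistedDerivedEquivalence hX hY) :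
    GradedIsomorphic (W.gr X) (W.gr Y) ∧
    ∀ (m : ℕ) (C : W.K), IsFujiki (W.tr X) hX m C → IsFujiki (W.tr Y) hY m C →
      HasIsotropicClass hY ∨ NoOddCohomology (W.gr Y) →
      Odd m ∧ IsMukaiIsometry (W.tr X) (W.tr Y) D ∨ OddB2 (W.gr X) ∧ IsometricH2 hX hY →
      FrobeniusIsomorphic (W.gr X) (W.gr Y) (W.tr X) (W.tr Y) := by
  have hA := W.isPoincareAlgebra X
  have hB := W.isPoincareAlgebra Y
  refine ⟨Pool.Agent.N212.TW.exists_ringIso hA hB D, ?_⟩
  intro m C hF hF' he hodd
  obtain ⟨r, hr⟩ : ∃ r : W.K, r ^ 2 = D.c := by
    rcases hodd with ⟨hm, hM⟩ | ⟨hb, hI⟩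
    · exact Pool.Agent.N212.TW.square_of_odd hA hB D hF hF' hm hM
    · exact Pool.Agent.N212.TW.square_of_odd_rank hA hB D hb hI
  obtain ⟨s, s', h1, h2⟩ : ∃ (s : W.H X →ₗ[W.K] W.H Y) (s' : W.H Y →ₗ[W.K] W.H X),
      IsGradedRingIso (W.gr X) (W.gr Y) s s' ∧ ∀ a, W.tr Y (s a) = W.tr X a := by
    rcases he with ⟨e, he0, he1⟩ | hev
    · exact Pool.Agent.N212.TW.exists_frobenius hA hB D hF hF' he0 he1 hr
    · exact Pool.Agent.N212.TW.exists_frobenius_even hA hB D hF hF' hev hr
  exact ⟨s, s', h1, fun a b => by rw [← h1.mul, h2]⟩

end Pool.Agent.Results.MP_d3d358_ag.TwistedCohomologyRings
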